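import Pool.Agent.Helper20.EQ.St2

/-!
# Project EQ, module PPO: one pair of slopes
-/

set_option autoImplicit false

open MeasureTheory Set Filter Topology
open scoped ENNReal RealInnerProductSpace

namespace Pool.Agent.Helper79.EQ

open Pool.Agent.Helper68.LM (Pl BB Bd Av HL ft fm DQ)
open Pool.Agent.Helper20.RG Pool.Agent.Helper20.EQ
open Pool.Agent.Helper68.EP (elt GapP)

theorem aa_le {s s' : ℝ} (h : s ≠ s') : (2 : ℝ) ^ (-(Aa s s' : ℤ)) ≤ |s - s'| := by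
  have hpos : 0 < |s - s'| := abs_pos.2 (sub_ne_zero.2 h)
  have h1 : -(Real.logb 2 |s - s'|) ≤ (Aa s s' : ℝ) := Nat.le_ceil _
  have h2 : -(Aa s s' : ℝ) ≤ Real.logb 2 |s - s'| := by linarith
  have h3 : (2 : ℝ) ^ (-(Aa s s' : ℝ)) ≤ |s - s'| :=
    (Real.le_logb_iff_rpow_le (by norm_num) hpos).1 h2
  rw [zpow_neg, zpow_natCast]
  rwa [Real.rpow_neg (by norm_num), Real.rpow_natCast] at h3

theorem cheb (f : Pl → ℝ) (hf : Continuous f) (η D : ℝ) (hη : 0 < η) (Q : Set Pl)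
    (h : ∫⁻ y in Q, ‖f y‖ₑ ^ 2 ≤ ENNReal.ofReal D) :
    volume ({x | η / 4 < |f x|} ∩ Q) ≤ ENNReal.ofReal (16 / η ^ 2 * D) := by
  have hop : IsOpen {x | η / 4 < |f x|} := isOpen_lt continuous_const hf.abs
  have hm : Measurable fun x => ‖f x‖ₑ ^ 2 := (hf.measurable.enorm).pow_const 2
  have h1 : ENNReal.ofReal (η ^ 2 / 16) * (volume.restrict Q) {x | η / 4 < |f x|} ≤
      ∫⁻ y in Q, ‖f y‖ₑ ^ 2 := by
    refine le_trans ?_ (mul_meas_ge_le_lintegral (μ := volume.restrict Q) hm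
      (ENNReal.ofReal (η ^ 2 / 16)))
    refine mul_le_mul_right (measure_mono ?_) _
    intro x hx
    have hx' : η / 4 < |f x| := hx
    change ENNReal.ofReal (η ^ 2 / 16) ≤ ‖f x‖ₑ ^ 2
    rw [Real.enorm_eq_ofReal_abs, ← ENNReal.ofReal_pow (abs_nonneg _)]
    refine ENNReal.ofReal_le_ofReal ?_
    nlinarith [abs_nonneg (f x)]
  rw [Measure.restrict_apply hop.measurableSet] at h1
  have h2 : ENNReal.ofReal (16 / η ^ 2) * ENNReal.ofReal (η ^ 2 / 16) = 1 := by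
    rw [← ENNReal.ofReal_mul (by positivity)]
    have : 16 / η ^ 2 * (η ^ 2 / 16) = 1 := by field_simp
    rw [this, ENNReal.ofReal_one]
  calc volume ({x | η / 4 < |f x|} ∩ Q)
      = ENNReal.ofReal (16 / η ^ 2) * (ENNReal.ofReal (η ^ 2 / 16) *
          volume ({x | η / 4 < |f x|} ∩ Q)) := by rw [← mul_assoc, h2, one_mul]
    _ ≤ ENNReal.ofReal (16 / η ^ 2) * ENNReal.ofReal D := by
        exact mul_le_mul_right (h1.trans h) _
    _ = ENNReal.ofReal (16 / η ^ 2 * D) := (ENNReal.ofReal_mul (by positivity)).symm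

/-- the directional change is small -/
theorem dir_small (f : Pl → ℝ) (e : Pl) (K : ℤ) (A h : ℕ) (η : ℝ)
    (hη1 : (2 : ℝ) ^ (-(h : ℤ)) ≤ η)
    (hinv : ∀ (x : Pl) (lam : ℝ), |f (x + lam • e) - f x| ≤ 2 * |lam| / (2 : ℝ) ^ K) (y : Pl)
    (hy : 3 * η / 8 < |f y|) (lam : ℝ)
    (hlam : |lam| ≤ 10 * (2 : ℝ) ^ (K - 4 * ((A : ℤ) + h + 10))) : η / 4 < |f (y + lam • e)| := by
  have hK : (0 : ℝ) < (2 : ℝ) ^ K := by positivity
  have e1 : (2 : ℝ) ^ (K - 4 * ((A : ℤ) + h + 10)) =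
      (2 : ℝ) ^ K * ((2 : ℝ) ^ (-(h : ℤ)) * (2 : ℝ) ^ (-((4 * A + 3 * h + 40 : ℕ) : ℤ))) := by
    rw [← zpow_add₀ (by norm_num), ← zpow_add₀ (by norm_num)]
    congr 1
    push_cast
    ring
  have e2 : (2 : ℝ) ^ (-((4 * A + 3 * h + 40 : ℕ) : ℤ)) ≤ 1 / 2 ^ 40 := by
    rw [zpow_neg, zpow_natCast, one_div]
    refine inv_anti₀ (by positivity) ?_
    exact pow_le_pow_right₀ (by norm_num) (by omega)
  have hh : (0 : ℝ) < (2 : ℝ) ^ (-(h : ℤ)) := by positivity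
  have e3 : 2 * |lam| / (2 : ℝ) ^ K ≤ η / 8 := by
    rw [div_le_iff₀ hK]
    have e4 : (2 : ℝ) ^ (-(h : ℤ)) * (2 : ℝ) ^ (-((4 * A + 3 * h + 40 : ℕ) : ℤ)) ≤
        η * (1 / 2 ^ 40) :=
      mul_le_mul hη1 e2 (by positivity) (hh.le.trans hη1)
    have e5 : |lam| ≤ 10 * ((2 : ℝ) ^ K * (η * (1 / 2 ^ 40))) := by
      refine hlam.trans ?_
      rw [e1]
      have := mul_le_mul_of_nonneg_left e4 hK.le
      linarith
    have hη0 : 0 ≤ η := hh.le.trans hη1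
    have e6 : 0 ≤ (2 : ℝ) ^ K * η := mul_nonneg hK.le hη0
    have e7 : 10 * ((2 : ℝ) ^ K * (η * (1 / 2 ^ 40))) = ((2 : ℝ) ^ K * η) * (10 / 2 ^ 40) := by
      ring
    rw [e7] at e5
    have e8 : ((2 : ℝ) ^ K * η) * (10 / 2 ^ 40) ≤ ((2 : ℝ) ^ K * η) * (1 / 16) :=
      mul_le_mul_of_nonneg_left (by norm_num) e6
    linarith
  have e9 := hinv y lam
  have e10 : |f y| - |f (y + lam • e)| ≤ |f (y + lam • e) - f y| := by
    rw [abs_sub_comm]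
    exact abs_sub_abs_le_abs_sub _ _
  linarith

theorem hPPO (hWCD : StWCD) (hPPW : StPPW) : StPPO := by
  obtain ⟨C, hC, hP⟩ := hPPW
  refine ⟨C, hC, ?_⟩
  intro n h k s s' η D₀ D₁ F F' G hn hs hs' hne hη1 hη2 hD0 hD1 hcont hinv hinv' hint
  have hη : 0 < η := lt_of_lt_of_le (by positivity) hη1
  obtain ⟨A, hA⟩ : ∃ A : ℕ, A = Aa s s' := ⟨_, rfl⟩
  have hγ : ga s s' h = 16 * (A + h + 10) := by rw [hA]; rfl
  rw [hγ]
  obtain ⟨γ, hγ'⟩ : ∃ γ : ℕ, γ = 16 * (A + h + 10) := ⟨_, rfl⟩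
  rw [← hγ']
  have hα : (2 : ℝ) ^ (-(A : ℤ)) ≤ |s - s'| := by rw [hA]; exact aa_le hne
  -- the product formula in one window
  have key : ∀ w : ℕ, volume {x | η / 2 ≤ |F w x| ∧ η / 2 ≤ |F' w x| ∧
      volume ({y | η / 4 < |F' w y|} ∩ Sq x ((2 : ℝ) ^ (k + (w : ℤ) - 8 * ((A : ℤ) + h + 10)))) ≤
        ENNReal.ofReal (D₁ * ((2 : ℝ) ^ (k + (w : ℤ) - 8 * ((A : ℤ) + h + 10))) ^ 2)} ≤
      ENNReal.ofReal (C * D₁) * volume {x | η / 4 < |F w x|} := by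
    intro w
    refine hP s s' ((2 : ℝ) ^ (-(A : ℤ))) ((2 : ℝ) ^ (k + (w : ℤ) - 8 * ((A : ℤ) + h + 10)))
      ((2 : ℝ) ^ (k + (w : ℤ) - 4 * ((A : ℤ) + h + 10))) D₁ {x | 3 * η / 8 < |F w x|}
      {x | 3 * η / 8 < |F' w x|} {x | η / 4 < |F w x|} {x | η / 4 < |F' w x|} _ hs hs'
      (by positivity) hα (by positivity) ?_ hD1.le
      (isOpen_lt continuous_const (hcont w).1.abs) (isOpen_lt continuous_const (hcont w).2.abs)
      (isOpen_lt continuous_const (hcont w).1.abs).measurableSet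
      (isOpen_lt continuous_const (hcont w).2.abs).measurableSet ?_ ?_ ?_ ?_
    · have e1 : (2 : ℝ) ^ (-(A : ℤ)) * (2 : ℝ) ^ (k + (w : ℤ) - 4 * ((A : ℤ) + h + 10)) =
          (2 : ℝ) ^ (k + (w : ℤ) - 8 * ((A : ℤ) + h + 10)) *
            (2 : ℝ) ^ (3 * A + 4 * h + 40 : ℕ) := by
        rw [← zpow_natCast, ← zpow_add₀ (by norm_num), ← zpow_add₀ (by norm_num)]
        congr 1
        push_cast
        ring
      rw [e1]
      have e2 : (100 : ℝ) ≤ (2 : ℝ) ^ (3 * A + 4 * h + 40 : ℕ) :=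
        calc (100 : ℝ) ≤ 2 ^ 7 := by norm_num
          _ ≤ (2 : ℝ) ^ (3 * A + 4 * h + 40 : ℕ) :=
            pow_le_pow_right₀ (by norm_num) (by omega)
      have e3 : (0 : ℝ) ≤ (2 : ℝ) ^ (k + (w : ℤ) - 8 * ((A : ℤ) + h + 10)) := by positivity
      calc 100 * (2 : ℝ) ^ (k + (w : ℤ) - 8 * ((A : ℤ) + h + 10))
          = (2 : ℝ) ^ (k + (w : ℤ) - 8 * ((A : ℤ) + h + 10)) * 100 := mul_comm _ _
        _ ≤ _ := mul_le_mul_of_nonneg_left e2 e3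
    · intro y hy lam hlam
      exact dir_small (F w) (E s) (k + (w : ℤ)) A h η hη1 (hinv w) y hy lam hlam
    · intro y hy lam hlam
      exact dir_small (F' w) (E s') (k + (w : ℤ)) A h η hη1 (hinv' w) y hy lam hlam
    · intro x hx
      have h1 : η / 2 ≤ |F w x| := hx.1
      have h2 : η / 2 ≤ |F' w x| := hx.2.1
      refine ⟨?_, ?_⟩
      · change 3 * η / 8 < |F w x|
        linarith
      · change 3 * η / 8 < |F' w x|
        linarith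
    · intro x hx
      exact hx.2.2
  -- exponents
  have hexp : ∀ i : ℕ, i < n → (k + (n : ℤ) * γ) - (i : ℤ) * γ =
      k + (((n - i) * γ : ℕ) : ℤ) := by
    intro i hi
    push_cast [Nat.cast_sub hi.le]
    ring
  have hexp2 : ∀ i : ℕ, i < n → (k + (n : ℤ) * γ) - ((i : ℤ) + 1) * γ =
      k + (((n - i) * γ : ℕ) : ℤ) - 16 * ((A : ℤ) + h + 10) := by
    intro i hi
    rw [← hexp i hi, hγ']
    push_cast
    ring
  have hW := hWCD n (k + (n : ℤ) * γ) γ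
    (fun i => (2 : ℝ) ^ (k + (((n - i) * γ : ℕ) : ℤ) - 8 * ((A : ℤ) + h + 10)))
    (fun i => {y | η / 4 < |F' ((n - i) * γ) y|}) G (16 / η ^ 2 * D₀) D₁ hn (by positivity) hD1
    (fun i _ => (isOpen_lt continuous_const (hcont _).2.abs).measurableSet)
    (by
      intro i hi
      refine ⟨?_, ?_⟩
      · rw [hexp2 i hi]
        exact zpow_le_zpow_right₀ (by norm_num) (by omega)
      · rw [hexp i hi]
        exact zpow_le_zpow_right₀ (by norm_num) (by omega))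
    (by
      intro i hi x hx
      rw [hexp i hi]
      have := cheb (F' ((n - i) * γ)) (hcont _).2 η (D₀ * (4 : ℝ) ^ (k + (((n - i) * γ : ℕ) : ℤ))) hη
        (Sq x (4 * (2 : ℝ) ^ (k + (((n - i) * γ : ℕ) : ℤ)))) (hint _ x hx)
      rwa [← mul_assoc] at this)
  have hsub : {x | x ∈ G ∧ ∀ i ∈ Finset.Icc 1 n, η / 2 ≤ |F (i * γ) x| ∧
      η / 2 ≤ |F' (i * γ) x|} ⊆
      (⋃ i ∈ Finset.Icc 1 n, {x | η / 2 ≤ |F (i * γ) x| ∧ η / 2 ≤ |F' (i * γ) x| ∧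
        volume ({y | η / 4 < |F' (i * γ) y|} ∩
          Sq x ((2 : ℝ) ^ (k + ((i * γ : ℕ) : ℤ) - 8 * ((A : ℤ) + h + 10)))) ≤
        ENNReal.ofReal (D₁ * ((2 : ℝ) ^ (k + ((i * γ : ℕ) : ℤ) -
          8 * ((A : ℤ) + h + 10))) ^ 2)}) ∪
      {x | x ∈ G ∧ ∀ i < n, ¬ volume ({y | η / 4 < |F' ((n - i) * γ) y|} ∩
        Sq x ((2 : ℝ) ^ (k + (((n - i) * γ : ℕ) : ℤ) - 8 * ((A : ℤ) + h + 10)))) ≤
        ENNReal.ofReal (D₁ * ((2 : ℝ) ^ (k + (((n - i) * γ : ℕ) : ℤ) -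
          8 * ((A : ℤ) + h + 10))) ^ 2)} := by
    intro x hx
    by_cases hall : ∀ i < n, ¬ volume ({y | η / 4 < |F' ((n - i) * γ) y|} ∩
        Sq x ((2 : ℝ) ^ (k + (((n - i) * γ : ℕ) : ℤ) - 8 * ((A : ℤ) + h + 10)))) ≤
        ENNReal.ofReal (D₁ * ((2 : ℝ) ^ (k + (((n - i) * γ : ℕ) : ℤ) -
          8 * ((A : ℤ) + h + 10))) ^ 2)
    · exact Or.inr ⟨hx.1, hall⟩
    · left
      simp only [not_forall, not_not] at hall
      obtain ⟨i, hi, hv⟩ := hall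
      have hmem : n - i ∈ Finset.Icc 1 n := Finset.mem_Icc.2 ⟨by omega, by omega⟩
      refine mem_iUnion₂.2 ⟨n - i, hmem, ?_⟩
      exact ⟨(hx.2 _ hmem).1, (hx.2 _ hmem).2, hv⟩
  refine (measure_mono hsub).trans ((measure_union_le _ _).trans ?_)
  refine add_le_add ?_ ?_
  · refine (measure_biUnion_finset_le _ _).trans ?_
    rw [Finset.mul_sum]
    exact Finset.sum_le_sum fun i _ => key (i * γ)
  · refine hW.trans (le_of_eq ?_)
    have e1 : 16 * (16 / η ^ 2 * D₀) / D₁ = 256 * D₀ / (η ^ 2 * D₁) := by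
      field_simp
      ring
    rw [e1]
    rfl

end Pool.Agent.Helper79.EQ
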